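import Pool.Agent.EHP56.Final

/-!
Maximal product of pairwise distances of `n` points of diameter at most two (MP_d975fc_co), for every
sufficiently large `n`: the product is at most that of the vertices of the regular `n`-gon of circumradius
`1 / cos (π / (2 n))`, whose diameter is two when `n` is odd.
-/

namespace Pool.Agent.Results.MP_d975fc_co.AllLargeN

open Pool.Agent.RegPoly

/-- There is `N` such that for every `n ≥ N` and all `z₁, …, zₙ ∈ ℂ` with pairwise distances at most `2`, the
product of the pairwise distances is at most that of the vertices of the regular `n`-gon of circumradius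
`1 / cos (π / (2 n))` (which has diameter `2` when `n` is odd). -/
theorem result :
    ∃ N : ℕ, ∀ n : ℕ, N ≤ n → ∀ z : Fin n → ℂ, (∀ i j : Fin n, ‖z i - z j‖ ≤ 2) →
      (∏ i : Fin n, ∏ j ∈ Finset.Ioi i, ‖z i - z j‖) ≤
        ∏ i : Fin n, ∏ j ∈ Finset.Ioi i,
          ‖((1 / Real.cos (Real.pi / (2 * (n : ℝ))) : ℝ) : ℂ) *
              Complex.exp (2 * (Real.pi : ℂ) * Complex.I * (i.val : ℂ) / (n : ℂ)) -
            ((1 / Real.cos (Real.pi / (2 * (n : ℝ))) : ℝ) : ℂ) *
              Complex.exp (2 * (Real.pi : ℂ) * Complex.I * (j.val : ℂ) / (n : ℂ))‖ := by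
  obtain ⟨N, hN⟩ := EHP56.final
  exact ⟨N, fun n hn z hz => hN n hn z hz⟩

end Pool.Agent.Results.MP_d975fc_co.AllLargeN
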