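import Pool.Agent.RegPoly.FiveSevenReg

/-!
Maximal product of pairwise distances for an odd number `n ≤ 7` of points of diameter at most two
(MP_d975fc_co): the regular `n`-gon of diameter two is a maximiser.
-/

namespace Pool.Agent.Results.MP_d975fc_co.OddUpToSeven

open Pool.Agent.RegPoly

lemma main_three (z : Fin 3 → ℂ) (hz : ∀ i j, ‖z i - z j‖ ≤ 2) :
    pairProd z ≤ pairProd (reg 3) := by
  have hval : 2 * (1 / Real.cos (Real.pi / (2 * (3 : ℝ)))) * Real.sin (Real.pi / 3) = 2 := by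
    rw [show Real.pi / (2 * (3 : ℝ)) = Real.pi / 6 by norm_num, Real.cos_pi_div_six,
      Real.sin_pi_div_three]
    have : (0 : ℝ) < Real.sqrt 3 := Real.sqrt_pos.mpr (by norm_num)
    field_simp
  have c3 : ((3 : ℕ) : ℝ) = 3 := by norm_num
  have key : ∀ (i j : Fin 3) (m : ℕ), j.val = i.val + m →
      Real.sin (Real.pi * (m : ℝ) / 3) = Real.sin (Real.pi / 3) → ‖reg 3 i - reg 3 j‖ = 2 := by
    intro i j m h hx
    have := reg_dist (n := 3) (by norm_num) i j (by omega)
    rw [c3, h] at this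
    rw [this]
    have e : Real.sin (Real.pi * (((i.val + m : ℕ) : ℝ) - i.val) / 3) = Real.sin (Real.pi / 3) := by
      rw [← hx]; congr 1; push_cast; ring
    rw [e, hval]
  have h01 : ‖reg 3 0 - reg 3 1‖ = 2 := key 0 1 1 (by decide) (by congr 1; push_cast; ring)
  have h12 : ‖reg 3 1 - reg 3 2‖ = 2 := key 1 2 1 (by decide) (by congr 1; push_cast; ring)
  have h02 : ‖reg 3 0 - reg 3 2‖ = 2 := by
    refine key 0 2 2 (by decide) ?_
    rw [← Real.sin_pi_sub]; congr 1; push_cast; ring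
  have e0 : (Finset.Ioi (0 : Fin 3)) = {1, 2} := by decide
  have e1 : (Finset.Ioi (1 : Fin 3)) = {2} := by decide
  have e2 : (Finset.Ioi (2 : Fin 3)) = ∅ := by decide
  have hexp : ∀ f : Fin 3 → ℂ, pairProd f = ‖f 0 - f 1‖ * ‖f 0 - f 2‖ * ‖f 1 - f 2‖ := by
    intro f
    unfold pairProd
    rw [Fin.prod_univ_three, e0, e1, e2, Finset.prod_insert (by decide), Finset.prod_singleton,
      Finset.prod_singleton, Finset.prod_empty, mul_one]
  rw [hexp, hexp, h01, h12, h02]
  have a := hz 0 1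
  have b := hz 0 2
  have c := hz 1 2
  have hab : ‖z 0 - z 1‖ * ‖z 0 - z 2‖ ≤ 2 * 2 :=
    mul_le_mul a b (norm_nonneg _) (by norm_num)
  exact mul_le_mul hab c (norm_nonneg _) (by norm_num)

/-- For every odd `n ≤ 7` and all `z₁, …, zₙ ∈ ℂ` with pairwise distances at most `2`, the product
of the pairwise distances is at most that of the vertices of the regular `n`-gon of diameter `2`. -/
theorem result :
    ∀ n : ℕ, Odd n → n ≤ 7 → ∀ z : Fin n → ℂ, (∀ i j : Fin n, ‖z i - z j‖ ≤ 2) →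
      (∏ i : Fin n, ∏ j ∈ Finset.Ioi i, ‖z i - z j‖) ≤
        ∏ i : Fin n, ∏ j ∈ Finset.Ioi i,
          ‖((1 / Real.cos (Real.pi / (2 * (n : ℝ))) : ℝ) : ℂ) *
              Complex.exp (2 * (Real.pi : ℂ) * Complex.I * (i.val : ℂ) / (n : ℂ)) -
            ((1 / Real.cos (Real.pi / (2 * (n : ℝ))) : ℝ) : ℂ) *
              Complex.exp (2 * (Real.pi : ℂ) * Complex.I * (j.val : ℂ) / (n : ℂ))‖ := by
  intro n hodd hn z hz
  have h4 : n = 1 ∨ n = 3 ∨ n = 5 ∨ n = 7 := by
    rcases hodd with ⟨k, hk⟩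
    omega
  rcases h4 with h | h | h | h
  · subst h
    simp
  · subst h
    exact main_three z hz
  · subst h
    exact main_five z hz
  · subst h
    exact main_seven z hz

end Pool.Agent.Results.MP_d975fc_co.OddUpToSeven
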